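import Pool.Agent.N762.KP.Uni
import Pool.Agent.Y221.CF.Abu
import Pool.Agent.TH466.QG.Top

/-!
MP_19d889_ag, Q1 (Campana): the augmented Kodaira dimension of the images, under rational maps of
bounded degree, of the components of projective varieties given by sums of few high powers.

Let `V` be an irreducible component, of dimension `w`, of a projective variety given by sums of at most
`s` powers of linear forms, or by forms with at most `s` monomials and divisible exponents, and let the
exponents be at least `N ≥ r w (s + 4) (s - 1) (s - 2) / 2`. Let `X` be any projective manifold with a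
dominant rational map `V ⇢ X` of degree at most `r`. If `κ(X) ≥ 0`, then `κ_{++}(X) = κ(X) = dim X`.

That `K_X` is pseudo-effective only if `X` is of general type is a theorem of the starting files
(`Pool/Agent/Y221/CF/Abu.lean`). The varieties are given by their function fields. A rank one subsheaf
`ℒ` of `Ω^p` is generated by a rational `p`-form `θ`; the sections of the powers of the saturation of
`ℒ` are the `f θ ^ N` which are regular at all prime divisors (`Pool/Agent/N762/KP/Defs.lean`).

helper762.
-/

set_option autoImplicit false
set_option linter.overlappingInstances false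

namespace Pool.Agent.Results.MP_19d889_ag.DominatedVarieties

open Pool.Agent.W602.GT (GeneralType Psef HighPowers SubVar IsComponent)
open Pool.Agent.N762.KP (kodaira augmented)

/-- Let `V` be an irreducible component, of dimension `w ≥ 1`, of a projective variety given by sums
of at most `s` powers of linear forms, or by forms with at most `s` monomials and divisible exponents,
and let the exponents be at least `N ≥ r w (s + 4) (s - 1) (s - 2) / 2`, `N ≥ 1`; `K` is the function
field of `V`. Let `V ⇢ X` be any dominant rational map of degree at most `r` to a projective manifold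
`X` with function field `L`. If `κ(X) ≥ 0` then `κ_{++}(X) = κ(X) = dim X`. -/
theorem result {n : ℕ} {ι : Type} {F : ι → MvPolynomial (Fin (n + 1)) ℂ} {s N w r : ℕ}
    (hF : HighPowers s N F) (hN1 : 1 ≤ N) (hw : 1 ≤ w)
    (hN : r * (w * ((s + 4) * ((s - 1) * (s - 2) / 2))) ≤ N) {K L : Type} [Field K]
    [Field L] [Algebra ℂ K] [Algebra ℂ L] [Algebra L K] [IsScalarTower ℂ L K]
    [FiniteDimensional L K] {y : Fin (n + 1) → K} (hy : SubVar F K w y)
    (hcomp : IsComponent F y) (hr : Module.finrank L K ≤ r) (h0 : kodaira ℂ L w ≠ ⊥) :
    augmented ℂ L w = kodaira ℂ L w ∧ kodaira ℂ L w = w := by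
  have h1 := (Pool.Agent.Y221.CF.abu_comp hF hN1 hw hN hy hcomp hr).1
  have hg : GeneralType ℂ L w := (h1.out 0 2).1 (Pool.Agent.N762.KP.psef_of_kodaira h0)
  obtain ⟨h2, h3⟩ := Pool.Agent.N762.KP.gt_case hw hg
  exact ⟨h3.trans h2.symm, h2⟩

end Pool.Agent.Results.MP_19d889_ag.DominatedVarieties
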