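import Pool.Agent.N762.KP.Aug
import Pool.Agent.Results.MP_f72953_ag.ImagesOfHypersurfaces

/-!
MP_19d889_ag, Q1 (Campana): the augmented Kodaira dimension of the images of smooth hypersurfaces.

Let `V` be a smooth hypersurface of degree `d` in `P^(n+1)`, of any dimension `n ≥ 1`, and `V ⇢ X` any
dominant rational map of degree `r` to a projective manifold `X`; nothing else is assumed about the map
(its ramification is arbitrary) or about `X`. Let `d ≥ 7 N + n + 6`, `d > (n + 1) N`,
`d > 3 (N + n - 1)` and `2 r < (N + 1) (d - n - N)`; with the best `N` the bound for `r` is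
`(3 / 49 - o(1)) d ^ 2` if `n ≤ 6`, and `(n / (2 (n + 1) ^ 2) - o(1)) d ^ 2` if `n ≥ 6`.

Then `κ_{++}(X) = κ(X)`, and this number is `dim X`, or `-∞` and `X` is unirational. So if `X` is not
unirational, it is of general type; and if `X` is unirational, no power of any rank one subsheaf of
`Ω^p`, `p > 0`, has nonzero sections. In particular Q1 holds for all these `X`.

That `X` is of general type or unirational is MP_f72953_ag.ImagesOfHypersurfaces (helper162 and the
helpers named there). The vanishing on unirational varieties is classical; its proof in the language of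
function fields is helper216's and helper170's.

The varieties are given by their function fields. A rank one subsheaf `ℒ` of `Ω^p` is generated by a
rational `p`-form `θ`; the sections of the powers of the saturation of `ℒ` are the `f θ ^ N` which are
regular at all prime divisors (`Pool/Agent/N762/KP/Defs.lean`).

helper762, helper162.
-/

set_option autoImplicit false

open FF MvPolynomial
open Pool.Agent.W619.TW (IsUnirational)
open Pool.Agent.N762.KP (kodaira augmented)

namespace Pool.Agent.Results.MP_19d889_ag.ImagesOfHypersurfaces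

/-- **Images of smooth hypersurfaces.** Let `K` be the function field of a smooth hypersurface `V` of
degree `d` in `P^(n+1)`, with equation `F` and generic point `t`, `t 0 = 1`, where `n ≥ 1`,
`d ≥ 7 N + n + 6`, `d > (n + 1) N` and `d > 3 (N + n - 1)`. Let `V ⇢ X` be a dominant rational map of
degree `r`, `2 r < (N + 1) (d - n - N)`, to a projective manifold `X` with function field `L`.

The augmented Kodaira dimension of `X` is equal to the Kodaira dimension of `X`; it is `n`, or it is
`-∞` and `X` is unirational. -/
theorem result {n d N : ℕ} (hn : 1 ≤ n) (hd : 7 * N + n + 6 ≤ d) (hd' : (n + 1) * N < d)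
    (hd'' : 3 * (N + n - 1) < d) {F : MvPolynomial (Fin (n + 2)) ℂ} (homogeneous : F.IsHomogeneous d)
    (smooth : ∀ z : Fin (n + 2) → ℂ, z ≠ 0 → ∃ l, eval z (pderiv l F) ≠ 0)
    {K : Type} [Field K] [Algebra ℂ K] (hK : Algebra.trdeg ℂ K = n) {t : Fin (n + 2) → K}
    (ht0 : t 0 = 1) (ht : aeval t F = 0) (hgen : IntermediateField.adjoin ℂ (Set.range t) = ⊤)
    (L : Type) [Field L] [Algebra ℂ L] [Algebra L K] [IsScalarTower ℂ L K] [FiniteDimensional L K]
    (hr : 2 * Module.finrank L K < (N + 1) * (d - n - N)) :
    augmented ℂ L n = kodaira ℂ L n ∧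
      (kodaira ℂ L n = n ∨ kodaira ℂ L n = ⊥ ∧ IsUnirational ℂ L n) := by
  have hL : Algebra.trdeg ℂ L = n := Pool.Agent.Y184.NT.trdeg_below (K := K) hK
  have h := Pool.Agent.Results.MP_f72953_ag.ImagesOfHypersurfaces.result hn hd hd' hd'' homogeneous
    smooth hK ht0 ht hgen L hr
  by_cases hg : Pool.Agent.W602.GT.GeneralType ℂ L n
  · obtain ⟨h1, h2⟩ := Pool.Agent.N762.KP.gt_case hn hg
    exact ⟨h2.trans h1.symm, Or.inl h1⟩
  · have hu : IsUnirational ℂ L n := h.1 hg
    obtain ⟨h1, h2⟩ := Pool.Agent.N762.KP.unirational_case hn hL hu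
    exact ⟨h2.trans h1.symm, Or.inr ⟨h1, hu⟩⟩

end Pool.Agent.Results.MP_19d889_ag.ImagesOfHypersurfaces
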