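import Pool.Agent.N162.GQ.Facts
import Pool.Agent.N162.GQ.Dich4

/-!
# The Kodaira dimension of the varieties dominated by products of complete intersections and curves

Let `V_0, ..., V_(k-1)` be projective varieties of any dimensions, each of which is

* a smooth complete intersection of codimension at least two in a projective space with canonical
  bundle `O(m_i)`, `m_i` large, or more generally a variety in projective `(M + 1)`-space which is cut
  out by equations of degree at most `D` and has the regular canonical forms `P(x) ω₀` for all forms
  `P` of degree `m_i` (`LowDegree`, `Pool/Agent/N162/GP/Def.lean`), where `m_i + 2 - N ≥ D`,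
  `m_i ≥ 7 N + 4`, `(M + 1) N < m_i + M + 2` and `g_i ≤ (N + 1) (m_i + 2 - N)` for some `N`; or
* a curve of gonality at least `g_i`

(`Factor`, `Pool/Agent/N162/GQ/Factor.lean`), and let `C` be a smooth projective curve of any genus. Let
`V = V_0 × ... × V_(k-1) × C ⇢ W` be a dominant rational map of finite degree to a variety `W`. It need
not be related to the product structure, and it need not be the quotient by a group. Let `W_i` be the
image of `V` in `W × V_0 × ... × V_(i-1)`, and let `d_i` be the degree over `W_i` of the image of `V` in
`W_i × V_i` (`deg`, `Pool/Agent/N162/GQ/Deg.lean`): for example `d_0` is the number of different points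
of `V_0` below a general fibre of `V ⇢ W`, and `d_1` is the number of different points of `V_1` which
occur if the point of `V_0` is fixed. The product of the `d_i` is at most the degree of `V ⇢ W`.

**Theorem.** If `2 d_i < g_i` for all `i < k` then

`κ(W) ≥ 0 ⟺ κ(W) ≥ dim W - 1 ⟺ K_W is pseudo-effective ⟺ W is not uniruled`.

So Q1 has a positive answer for all projective manifolds `X` which are birational to such a variety `W`:
if `κ(X) ≥ 0` then `κ(X) ≥ dim X - 1`. If `κ_{++}(X) > κ(X)` then `κ_{++}(X) = dim X`, and `X` is of general
type by the theorem of Bogomolov and Sommese (one of the known facts on the page, not part of the Lean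
proof), a contradiction. So `κ_{++}(X) = κ(X)`. By the theorem it is enough that `K_X` is pseudo-effective, or
that `X` is not uniruled.

Complete intersections of type `(d_1, ..., d_q)` in `ℙ^(n+q)` have `m = ∑ d_i - n - q - 1`,
`D = max d_i`, `M + 1 = n + q`; with the best `N` the bound `(N + 1) (m + 2 - N)` is
`(6 / 49 - o(1)) m ^ 2` if `M ≤ 5` and `max d_i ≤ 6 m / 7`. So `d_i` may be of the order of `m_i ^ 2`, and
the product of the `d_i`, and the degree of `V ⇢ W`, of the order of the product of all `m_i ^ 2`. There
is no condition on the irregularity: if all `V_i` have dimension at least two then they are simply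
connected, and `q(W) = 0` is possible. Products with curves show that some condition on the degrees is
necessary: the Kummer surface `(X × C) / {± 1}` with elliptic curves `X` and `C` has `κ = 0`, and a
bielliptic surface has `p_g = 0` and `κ = 0`.

## Proof

By helper145's theorem on the varieties dominated by the product of several varieties and a curve
(`Pool/Agent/N145/SX/MFin.lean`, see `MP_97d78d_ag.ProductsOfVarieties`) it is enough to show that the canonical forms of `V_i` separate fewer than
`g_i` generic points. For curves this is due to Riemann and Roch, for complete intersections it is the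
main point of `MP_31564d_ag.CompleteIntersections`: if there is a relation between the values of the forms
`P` of degree `m` at fewer than `(N + 1) (m + 2 - N)` generic points, then by results on points in a plane
applied to projections and by the Cayley-Bacharach theorem the points are on a curve with components of
total degree at most `N`, and one of the components, of degree `g'`, contains at least
`g' (m + 3 - N)` of the points, hence is contained in `V_i`; the canonical forms pulled back to the total
space of the family of curves given by it have no poles, and the residue theorem gives a contradiction.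

The parts for this theorem were formalised by helper78 (curves), helper2, helper11, helper340, helper774,
helper823, helper152, helper383, helper252, helper339, helper681 and helper364 (complete intersections),
and helper145, helper123, helper221, helper442, helper160, helper279, helper603, helper545, helper281,
helper438, helper277, helper999, helper297, helper273 and helper459 (products with a curve), the earlier
parts which are used by helper565, helper543, helper488, helper570, helper80 and others; the statements
and the assembly by helper162. (A version with one condition on the degree over `W` of the image of `V`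
in `W × V_0 × ... × V_(k-1)` is proved in `Pool/Agent/N162/GQ/Asm.lean`, with parts by helper249 and
helper288.)
-/

set_option autoImplicit false
set_option linter.overlappingInstances false
set_option maxHeartbeats 4000000
set_option synthInstance.maxHeartbeats 400000

open FF Module Pool.Agent.W602.GT Pool.Agent.N162.BC Pool.Agent.N162.GP
open Pool.Agent.N162.GQ (Factor Img deg)
open Pool.Agent.W619.PQ (IsUniruled)

namespace Pool.Agent.Results.MP_19d889_ag.ProductsTimesCurve

/-- **The Kodaira dimension of the varieties dominated by products.** (1) A smooth complete intersection `V` of dimension `n ≥ 1` of hypersurfaces of the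
degrees `d i ≤ D` in projective `(M + 1)`-space is cut out by equations of degree at most `D`, and the
forms of degree `m = ∑ d i - M - 2` give regular canonical forms (`LowDegree`). (2) Let `K` be the
function field of `V = V_0 × ... × V_(k-1) × C`: the compositum of the function fields `F i` of the
varieties `V_i`, `i < k`, of dimension `n i`, and of the function field `F k` of a curve `C`, of
transcendence degree `∑ n i + 1`. Each `V_i` satisfies `LowDegree` with `g i ≤ (N + 1) (m + 2 - N)`,
`m ≥ 7 N + 4`, `(M + 1) N < m + M + 2`, `D + N ≤ m + 2` for some `N`, or is a curve of gonality at least
`g i` (`Factor`). Let `L ⊆ K` be the function field of a variety `W` such that the extension is finite, and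
let `2 * deg F L i < g i` for all `i < k`, where `deg F L i` is the degree over the image `W_i` of `V` in
`W × V_0 × ... × V_(i-1)` of the image of `V` in `W_i × V_i`. Then the following are equivalent:
`κ(W) ≥ 0`; `κ(W) ≥ dim W - 1`; `K_W` is pseudo-effective; `W` is not uniruled. -/
theorem result :
    (∀ (M n q m D : ℕ) (E : Type) [Field E] [Algebra ℂ E]
      (F : Fin q → MvPolynomial (Fin (M + 2)) ℂ) (d : Fin q → ℕ) (x : Fin (M + 2) → E),
      SmoothCI F d x → 1 ≤ n → Algebra.trdeg ℂ E = n → n + q = M + 1 → m + M + 2 = ∑ i, d i →
      (∀ i, d i ≤ D) → 1 ≤ D → LowDegree n m D x) ∧
    ∀ (k : ℕ) (n g : Fin k → ℕ) (K : Type) [Field K] [Algebra ℂ K] [Algebra.EssFiniteType ℂ K]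
      (F : Fin (k + 1) → IntermediateField ℂ K) [IsFF ℂ (F (Fin.last k))],
      (∀ i : Fin k, Factor (F i.castSucc) (n i) (g i)) → (⨆ i, F i) = ⊤ →
      Algebra.trdeg ℂ K = ((∑ i, n i) + 1 : ℕ) →
      ∀ (L : Type) [Field L] [Algebra ℂ L] [Algebra L K] [IsScalarTower ℂ L K]
        [FiniteDimensional L K], (∀ i : Fin k, 2 * deg F L i.castSucc < g i) →
        [KodGe ℂ L ((∑ i, n i) + 1) (fun _ => False) 0,
          KodGe ℂ L ((∑ i, n i) + 1) (fun _ => False) (∑ i, n i),
          Psef ℂ L ((∑ i, n i) + 1) (fun _ => False), ¬ IsUniruled ℂ L ((∑ i, n i) + 1)].TFAE := by
  refine ⟨fun M n q m D E _ _ F d x h hn hE hq hm hD hD1 =>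
    lowDegree_of_smoothCI fCIC fCIA h hn hE hq hm hD hD1, ?_⟩
  intro k n g K _ _ _ F _ hE hF hK L _ _ _ _ _ hr
  exact Pool.Agent.N162.GQ.mprod_dich4 Pool.Agent.N162.GQ.fGON hE hF hK hr

end Pool.Agent.Results.MP_19d889_ag.ProductsTimesCurve
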