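import Pool.Agent.N762.KP.Uni
import Pool.Agent.R869.WProj
import Pool.Agent.R869.WEx2

/-!
MP_19d889_ag, Q1 (Campana): the augmented Kodaira dimension of the varieties given by sparse equations
with far apart exponents.

Let `X` be any projective manifold which is birational to an irreducible component of a projective
variety given by forms with at most `s` monomials and arbitrary coefficients, whose exponents are far
apart in the sense of lattice widths; no divisibility of the exponents is assumed. If `κ(X) ≥ 0`, then
`κ_{++}(X) = κ(X) = dim X`.

`Wide ∅ F N` (`Pool/Agent/R869/WDefs.lean`): whenever at most `n` pairs of exponent vectors of the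
forms, in the variables of a set `I`, are such that the sum of the segments between them has positive
width in all directions, this sum has width at least `N` in all directions.

That these varieties are ruled or of general type is a theorem of the starting files
(`Pool/Agent/R869/WProj.lean`). The varieties are given by their function fields. A rank one subsheaf
`ℒ` of `Ω^p` is generated by a rational `p`-form `θ`; the sections of the powers of the saturation of
`ℒ` are the `f θ ^ N` which are regular at all prime divisors (`Pool/Agent/N762/KP/Defs.lean`).

helper762.
-/

set_option autoImplicit false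
set_option linter.overlappingInstances false

namespace Pool.Agent.Results.MP_19d889_ag.WideSystems

open MvPolynomial Pool.Agent.W602.GT Pool.Agent.R869.Wd
open Pool.Agent.N762.KP (kodaira augmented)

/-- Let `X` be birational to an irreducible component, of dimension `w ≥ 1` and with function field
`K`, of the projective variety in `P^n` given by forms `F e` with at most `s` monomials, and let the
system of forms be `N`-wide with `N > n s (s - 1) (s - 2) / 2`. If `κ(X) ≥ 0` then
`κ_{++}(X) = κ(X) = dim X`. -/
theorem result {n : ℕ} {ι : Type} {F : ι → MvPolynomial (Fin (n + 1)) ℂ} {s N : ℕ}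
    (hs : 1 ≤ s) (hF : ∀ e, IsForm (F e)) (hc : ∀ e, (F e).support.card ≤ s)
    (hW : Wide ∅ F N) (hN : n * (s * ((s - 1) * (s - 2) / 2)) < N) {K : Type} [Field K]
    [Algebra ℂ K] {w : ℕ} {y : Fin (n + 1) → K} (hw : 1 ≤ w) (hy : SubVar F K w y)
    (hcomp : IsComponent F y) (h0 : kodaira ℂ K w ≠ ⊥) :
    augmented ℂ K w = kodaira ℂ K w ∧ kodaira ℂ K w = w := by
  have hC : Sys ∅ F s N := ⟨hF, hs, hc, hW, by
    rw [tri_choose]
    refine lt_of_le_of_lt (le_of_eq ?_) hN
    ring⟩
  have h1 := general_or_ruled hC hw hy hcomp
  have hg : GeneralType ℂ K w := (h1.out 2 0).1 (Pool.Agent.N762.KP.psef_of_kodaira h0)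
  obtain ⟨h2, h3⟩ := Pool.Agent.N762.KP.gt_case hw hg
  exact ⟨h3.trans h2.symm, h2⟩

end Pool.Agent.Results.MP_19d889_ag.WideSystems
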